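import Mathlib
import Pool.Agent.Helper30.NilUniv

set_option autoImplicit false

namespace Pool.Agent.Results.MP_734462_al.CountableFields

/-- A vector space of countable dimension over a countable field is countable. -/
lemma countable_of_rank {F A : Type} [Field F] [Countable F] [AddCommGroup A]
    [Module F A] (h : Module.rank F A ≤ Cardinal.aleph0) : Countable A := by
  have b := Module.Free.chooseBasis F A
  have h1 : Countable (Module.Free.ChooseBasisIndex F A) := by
    rw [← Cardinal.mk_le_aleph0_iff, ← Module.Free.rank_eq_card_chooseBasisIndex]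
    exact h
  exact b.repr.toEquiv.injective.countable

/-- The iterates of left multiplication compute the powers in the unitization. -/
lemma inr_iterate {F A : Type} [Field F] [NonUnitalRing A]
    [Module F A] [IsScalarTower F A A] [SMulCommClass F A A] (a : A) (n : ℕ) :
    (((fun x : A => a * x)^[n] a : A) : Unitization F A) = (a : Unitization F A) ^ (n + 1) := by
  induction n with
  | zero => simp
  | succ n ih =>
    rw [Function.iterate_succ_apply', Unitization.inr_mul, ih, ← pow_succ']

/-- The iterates of left multiplication compute the powers in an overring. -/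
lemma coe_iterate {F Q : Type} [Field F] [Ring Q] [Algebra F Q]
    (B : NonUnitalSubalgebra F Q) (b : B) (n : ℕ) :
    (((fun x : B => b * x)^[n] b : B) : Q) = (b : Q) ^ (n + 1) := by
  induction n with
  | zero => simp
  | succ n ih =>
    rw [Function.iterate_succ_apply', pow_succ', ← ih]
    rfl

/-- **No universal nilalgebra over a countable field.**  Let `F` be any countable field and `A` an associative
nil `F`-algebra of at most countable dimension (`(fun x => a * x)^[n] a` is the power `a ^ (n + 1)`).  Then there
is a nil `F`-algebra `B` of at most countable dimension that is not a homomorphic image of `A`. -/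
theorem result (F : Type) [Field F] [Countable F] (A : Type) [NonUnitalRing A] [Module F A]
    [IsScalarTower F A A] [SMulCommClass F A A]
    (hnil : ∀ a : A, ∃ n : ℕ, (fun x : A => a * x)^[n] a = 0)
    (hdim : Module.rank F A ≤ Cardinal.aleph0) :
    ∃ (B : Type) (_ : NonUnitalRing B) (_ : Module F B) (_ : IsScalarTower F B B)
      (_ : SMulCommClass F B B),
      (∀ b : B, ∃ n : ℕ, (fun x : B => b * x)^[n] b = 0) ∧
      Module.rank F B ≤ Cardinal.aleph0 ∧
      ¬ ∃ f : A →ₙₐ[F] B, Function.Surjective f := by
  have hc : Countable A := countable_of_rank hdim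
  obtain ⟨Q, _, _, B, hBc, hBn, hB⟩ := Pool.Agent.Helper30.NilUniv.main F A (fun a => by
    obtain ⟨n, hn⟩ := hnil a
    refine ⟨Polynomial.X ^ (n + 1), pow_ne_zero _ Polynomial.X_ne_zero, by simp, ?_⟩
    rw [map_pow, Polynomial.aeval_X, ← inr_iterate (F := F) a n, hn]
    exact Unitization.inr_zero F)
  refine ⟨B, inferInstance, inferInstance, inferInstance, inferInstance, fun b => ?_, ?_, hB⟩
  · obtain ⟨n, hn⟩ := hBn b
    refine ⟨n, Subtype.ext ?_⟩
    rw [coe_iterate B b n, pow_succ, hn, zero_mul]
    rfl
  · refine (rank_le_card F B).trans ?_
    rw [Cardinal.mk_le_aleph0_iff]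
    exact hBc

end Pool.Agent.Results.MP_734462_al.CountableFields
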